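import Pool.Agent.V8H90.FG.Stm
import Pool.Agent.Y971.SP.ChartP
import Pool.Agent.Helper386.D5V.Helper386_FF_Fund

/-! # The vector field `d / dx` on the places of the generic fibre -/

set_option autoImplicit false

namespace Pool.Agent.V8H61.FG

open FF Module MvPolynomial Pool.Agent.W602.GT Pool.Agent.Y742.SP
open Pool.Agent.V8H90.FG
open scoped IntermediateField.algebraAdjoinAdjoin

section gen

variable {L K : Type} [Field L] [Field K] [Algebra L K]

theorem algF (h1 : Algebra.trdeg L K = 1) {f : K} (hf : Transcendental L f) :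
    Algebra.IsAlgebraic (IntermediateField.adjoin L {f}) K := by
  have h1' : AlgebraicIndependent L (fun _ : Unit => f) :=
    (algebraicIndependent_singleton_iff ()).2 hf
  have hb' : IsTranscendenceBasis L (fun _ : Unit => f) :=
    h1'.isTranscendenceBasis_of_trdeg_le_of_finite (by rw [h1]; simp)
  have := hb'.isAlgebraic_field
  rwa [Set.range_const] at this

theorem finF [Algebra.EssFiniteType L K] (h1 : Algebra.trdeg L K = 1) {f : K}
    (hf : Transcendental L f) : FiniteDimensional (IntermediateField.adjoin L {f}) K := by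
  have := algF h1 hf
  have h4 : Algebra.EssFiniteType (IntermediateField.adjoin L {f}) K :=
    Algebra.EssFiniteType.of_comp L _ K
  exact Algebra.finite_of_essFiniteType_of_isAlgebraic

/-- finitely many zeros of a transcendental function -/
theorem fin_zero_tr [CharZero L] [Algebra.EssFiniteType L K] (h1 : Algebra.trdeg L K = 1) {s : K}
    (hs : Transcendental L s) : {w : Place L K | 0 < w.ord s}.Finite := by
  have hfin : FiniteDimensional (IntermediateField.adjoin L {s}) K := finF h1 hs
  have hc0 : CharZero (IntermediateField.adjoin L {s}) :=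
    charZero_of_injective_algebraMap (algebraMap L _).injective
  let e := Polynomial.algEquivOfTranscendental L s hs
  have hp : IsPrincipalIdealRing (Algebra.adjoin L {s}) :=
    IsPrincipalIdealRing.of_surjective e.toRingHom e.surjective
  have hirr : Irreducible (e Polynomial.X) :=
    (MulEquiv.irreducible_iff e).2 Polynomial.irreducible_X
  have hmax : (Ideal.span {e Polynomial.X}).IsMaximal :=
    PrincipalIdealRing.isMaximal_of_irreducible hirr
  obtain ⟨T, hT, -, -⟩ := fundamental (k := L) (A := Algebra.adjoin L {s}) (L := K)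
    (IntermediateField.adjoin L {s}) (e Polynomial.X) hirr.ne_zero hmax
  have h2 : algebraMap (Algebra.adjoin L {s}) K (e Polynomial.X) = s := by
    simp [e]
  refine T.finite_toSet.subset fun w hw => ?_
  rw [Finset.mem_coe, hT, h2]
  refine ⟨fun a => ?_, hw⟩
  have hs' : w.Reg s := Or.inr (le_of_lt hw)
  obtain ⟨a, ha⟩ := a
  change w.Reg a
  induction ha using Algebra.adjoin_induction with
  | mem y hy =>
    rw [Set.mem_singleton_iff] at hy
    rw [hy]
    exact hs'
  | algebraMap r => exact w.reg_const r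
  | add y z _ _ hy hz => exact w.reg_add hy hz
  | mul y z _ _ hy hz => exact w.reg_mul hy hz

/-- algebraic functions are units -/
theorem ord_alg (w : Place L K) {f : K} (hf : IsAlgebraic L f) (h0 : f ≠ 0) : w.ord f = 0 := by
  have h1 : w.Reg f := w.reg_of_isIntegral (fun a => w.reg_const a) hf.isIntegral
  have h2 : w.Reg f⁻¹ := w.reg_of_isIntegral (fun a => w.reg_const a) hf.inv.isIntegral
  rw [w.reg_iff h0] at h1
  rw [w.reg_iff (inv_ne_zero h0), w.ord_inv] at h2
  omega

theorem fin_zero [CharZero L] [Algebra.EssFiniteType L K] (h1 : Algebra.trdeg L K = 1) (f : K)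
    (h0 : f ≠ 0) : {w : Place L K | 0 < w.ord f}.Finite := by
  by_cases hf : Transcendental L f
  · exact fin_zero_tr h1 hf
  · have : {w : Place L K | 0 < w.ord f} = ∅ := by
      ext w
      simp only [Set.mem_ofPred_eq, Set.mem_empty_iff_false, iff_false, not_lt]
      exact (ord_alg w (not_not.1 hf) h0).le
    rw [this]
    exact Set.finite_empty

theorem fin_ne [CharZero L] [Algebra.EssFiniteType L K] (h1 : Algebra.trdeg L K = 1) (f : K)
    (h0 : f ≠ 0) : {w : Place L K | w.ord f ≠ 0}.Finite := by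
  refine ((fin_zero h1 f h0).union (fin_zero h1 f⁻¹ (inv_ne_zero h0))).subset fun w hw => ?_
  rcases lt_or_gt_of_ne (show w.ord f ≠ 0 from hw) with h | h
  · right
    change 0 < w.ord f⁻¹
    rw [w.ord_inv]
    omega
  · exact Or.inl h

theorem tdeg_pderiv (P : MvPolynomial (Fin 2) L) (i : Fin 2) (h : pderiv i P ≠ 0) :
    (pderiv i P).totalDegree < P.totalDegree := by
  classical
  obtain ⟨m, hm, hmax⟩ := Finset.exists_mem_eq_sup _ (support_nonempty.2 h)
    (fun s : Fin 2 →₀ ℕ => s.sum fun _ e => e)
  have h1 : (pderiv i P).totalDegree = m.sum fun _ e => e := hmax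
  have h2 : coeff m (pderiv i P) ≠ 0 := mem_support_iff.1 hm
  rw [coeff_pderiv] at h2
  have h3 : coeff (m + Finsupp.single i 1) P ≠ 0 := fun h0 => h2 (by rw [h0]; simp)
  have h4 := le_totalDegree (mem_support_iff.2 h3)
  rw [Finsupp.sum_add_index' (by simp) (by simp)] at h4
  simp at h4
  rw [h1]
  simpa [Finsupp.sum] using Nat.lt_of_succ_le h4

/-- polynomials in the first variable -/
theorem alg_of_pderiv [CharZero L] (H : MvPolynomial (Fin 2) L) (h0 : H ≠ 0)
    (hd : pderiv 1 H = 0) (x θ : K) (hz : aeval ![x, θ] H = 0) : IsAlgebraic L x := by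
  classical
  have hm1 : ∀ m ∈ H.support, m 1 = 0 := by
    intro m hm
    by_contra hne
    have h1 : coeff (m - Finsupp.single 1 1) (pderiv 1 H) = 0 := by rw [hd, coeff_zero]
    rw [coeff_pderiv] at h1
    have h2 : m - Finsupp.single 1 1 + Finsupp.single 1 1 = m := by
      apply tsub_add_cancel_of_le
      intro i
      fin_cases i
      · simp
      · simp only [Finsupp.single_eq_same, Fin.mk_one, Fin.isValue]
        omega
    rw [h2] at h1
    rcases mul_eq_zero.1 h1 with h3 | h3
    · exact (mem_support_iff.1 hm) h3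
    · exact Nat.cast_add_one_ne_zero ((m - Finsupp.single 1 1 : Fin 2 →₀ ℕ) 1) h3
  refine ⟨∑ m ∈ H.support, Polynomial.monomial (m 0) (coeff m H), ?_, ?_⟩
  · intro hq
    obtain ⟨m0, hm0⟩ := support_nonempty.2 h0
    have h1 : (∑ m ∈ H.support, Polynomial.monomial (m 0) (coeff m H)).coeff (m0 0) = 0 := by
      rw [hq, Polynomial.coeff_zero]
    rw [Polynomial.finsetSum_coeff, Finset.sum_eq_single m0] at h1
    · rw [Polynomial.coeff_monomial_same] at h1
      exact (mem_support_iff.1 hm0) h1
    · intro m hm hne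
      rw [Polynomial.coeff_monomial, if_neg]
      intro h2
      apply hne
      ext i
      fin_cases i
      · exact h2
      · change m 1 = m0 1
        rw [hm1 m hm, hm1 m0 hm0]
    · intro h2
      exact absurd hm0 h2
  · rw [map_sum, ← hz]
    conv_rhs => rw [aeval_def, eval₂_eq']
    refine Finset.sum_congr rfl fun m hm => ?_
    rw [Polynomial.aeval_monomial, Fin.prod_univ_two, hm1 m hm, pow_zero, mul_one]
    rfl

/-- a plane model -/
theorem exists_model [CharZero L] [Algebra.EssFiniteType L K] (h1 : Algebra.trdeg L K = 1) {x : K}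
    (hx : Transcendental L x) : ∃ (θ : K) (H : MvPolynomial (Fin 2) L),
      aeval ![x, θ] H = 0 ∧ aeval ![x, θ] (pderiv 1 H) ≠ 0 ∧
      IntermediateField.adjoin L (Set.range ![x, θ]) = ⊤ := by
  have hfin : FiniteDimensional (IntermediateField.adjoin L {x}) K := finF h1 hx
  have hc0 : CharZero (IntermediateField.adjoin L {x}) :=
    charZero_of_injective_algebraMap (algebraMap L _).injective
  obtain ⟨θ, hθ⟩ := Field.exists_primitive_element (IntermediateField.adjoin L {x}) K
  have hgen : IntermediateField.adjoin L (Set.range ![x, θ]) = ⊤ := by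
    have h2 : (Set.range ![x, θ] : Set K) = {x} ∪ {θ} := by
      ext y
      simp [eq_comm]
    rw [h2, ← IntermediateField.adjoin_adjoin_left, hθ]
    rfl
  have hdep : ∃ H : MvPolynomial (Fin 2) L, H ≠ 0 ∧ aeval ![x, θ] H = 0 := by
    by_contra hcon
    push Not at hcon
    have hai : AlgebraicIndependent L ![x, θ] := by
      refine (injective_iff_map_eq_zero _).2 fun H hH => ?_
      by_contra h0
      exact hcon H h0 hH
    have h3 := hai.cardinalMk_le_trdeg
    rw [h1, Cardinal.mk_fin] at h3
    have h4 : (2 : ℕ) ≤ 1 := by exact_mod_cast h3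
    omega
  -- minimal total degree
  obtain ⟨H, ⟨hH0, hHz⟩, hmin⟩ : ∃ H : MvPolynomial (Fin 2) L,
      (H ≠ 0 ∧ aeval ![x, θ] H = 0) ∧ ∀ G : MvPolynomial (Fin 2) L,
        (G ≠ 0 ∧ aeval ![x, θ] G = 0) → H.totalDegree ≤ G.totalDegree := by
    obtain ⟨H, hH⟩ := hdep
    have hne : ∃ n, ∃ G : MvPolynomial (Fin 2) L, (G ≠ 0 ∧ aeval ![x, θ] G = 0) ∧
        G.totalDegree = n := ⟨_, H, hH, rfl⟩
    classical
    obtain ⟨G, hG, hGn⟩ := Nat.find_spec hne
    refine ⟨G, hG, fun G' hG' => ?_⟩
    rw [hGn]
    exact Nat.find_min' hne ⟨G', hG', rfl⟩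
  refine ⟨θ, H, hHz, ?_, hgen⟩
  intro hpd
  -- then the partial derivative vanishes
  have hpd0 : pderiv 1 H = 0 := by
    by_contra hne
    have h5 := hmin _ ⟨hne, hpd⟩
    have h6 := tdeg_pderiv H 1 hne
    omega
  exact hx (alg_of_pderiv H hH0 hpd0 x θ hHz)

end gen

section main

variable {K : Type} [Field K] [Algebra ℂ K]

theorem trdeg_one {d : ℕ} (hK : Algebra.trdeg ℂ K = (d + 1 : ℕ)) (L : IntermediateField ℂ K)
    (t : Fin d → L) (ht : IsTranscendenceBasis ℂ t) : Algebra.trdeg L K = 1 := by
  have h1 := ht.cardinalMk_eq_trdeg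
  have h2 := _root_.trdeg_add_eq ℂ L (A := K)
  rw [hK, ← h1, Cardinal.mk_fin] at h2
  have h3 : Algebra.trdeg L K < Cardinal.aleph0 := by
    have h4 : Algebra.trdeg L K ≤ ((d + 1 : ℕ) : Cardinal) := by
      rw [← h2]
      exact self_le_add_left _ _
    exact lt_of_le_of_lt h4 (Cardinal.natCast_lt_aleph0)
  obtain ⟨n, hn⟩ := Cardinal.lt_aleph0.1 h3
  rw [hn] at h2 ⊢
  have h4 : d + n = d + 1 := by exact_mod_cast h2
  have h5 : n = 1 := by omega
  rw [h5, Nat.cast_one]

/-- the place over `L` of a place trivial on `L` -/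
def toL (L : IntermediateField ℂ K) (P : Place ℂ K) (h : TrivOn P L) : Place L K where
  ord := P.ord
  ord_zero := P.ord_zero
  ord_mul := P.ord_mul
  ord_add := P.ord_add
  ord_const := fun {c} hc => h c c.2 fun h0 => hc (Subtype.ext h0)
  surj := P.surj

/-- the place over the complex numbers -/
def ofL (L : IntermediateField ℂ K) (w : Place L K) : Place ℂ K where
  ord := w.ord
  ord_zero := w.ord_zero
  ord_mul := w.ord_mul
  ord_add := w.ord_add
  ord_const := fun {c} hc => by
    have h1 : algebraMap ℂ L c ≠ 0 := fun h => hc ((map_eq_zero _).1 h)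
    exact w.ord_const h1
  surj := w.surj

theorem ofL_toL (L : IntermediateField ℂ K) (P : Place ℂ K) (h : TrivOn P L) :
    ofL L (toL L P h) = P := rfl

/-- a derivation which is zero on the coefficients -/
theorem der_aeval (L : IntermediateField ℂ K) (D : Derivation ℂ K K) (hD : ∀ a ∈ L, D a = 0)
    (z : Fin 2 → K) (H : MvPolynomial (Fin 2) L) :
    D (aeval z H) = ∑ i, aeval z (pderiv i H) * D (z i) := by
  induction H using MvPolynomial.induction_on with
  | C a =>
    rw [aeval_C]
    simp only [pderiv_C, map_zero, zero_mul, Finset.sum_const_zero]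
    exact hD a a.2
  | add p q hp hq =>
    simp only [map_add, hp, hq, add_mul, Finset.sum_add_distrib]
  | mul_X p j hp =>
    rw [map_mul, aeval_X, Derivation.leibniz, hp]
    simp only [Derivation.leibniz, map_add, smul_eq_mul, map_mul, aeval_X, pderiv_X, add_mul,
      Finset.sum_add_distrib, Finset.mul_sum]
    congr 1
    · rw [Finset.sum_eq_single j]
      · simp
      · intro i _ hi
        rw [Pi.single_eq_of_ne (Ne.symm hi)]
        simp
      · intro h
        exact absurd (Finset.mem_univ _) h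
    · exact Finset.sum_congr rfl fun i _ => by ring

theorem reg_aeval (L : IntermediateField ℂ K) {P : Place ℂ K} (hP : TrivOn P L) {z : Fin 2 → K}
    (hz : ∀ i, P.Reg (z i)) (F : MvPolynomial (Fin 2) L) : P.Reg (aeval z F) := by
  induction F using MvPolynomial.induction_on with
  | C a =>
    rw [aeval_C]
    by_cases h : (a : K) = 0
    · exact Or.inl h
    · exact Or.inr (hP a a.2 h).ge
  | add p q hp hq =>
    rw [map_add]
    exact P.reg_add hp hq
  | mul_X p i hp =>
    rw [map_mul, aeval_X]
    exact P.reg_mul hp (hz i)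

theorem sFin : SFin := by
  intro K _ _ _ d hK L t ht x hx D hD hDx
  have h1 := trdeg_one hK L t ht
  have hE : Algebra.EssFiniteType L K := Algebra.EssFiniteType.of_comp ℂ L K
  have hc : CharZero L := charZero_of_injective_algebraMap (algebraMap ℂ L).injective
  obtain ⟨θ, H, hH, hHy, hgen⟩ := exists_model h1 hx
  obtain ⟨w, hw⟩ : ∃ w, w = aeval ![x, θ] (pderiv 1 H) := ⟨_, rfl⟩
  rw [← hw] at hHy
  have hx0 : x ≠ 0 := by
    rintro rfl
    exact hx isAlgebraic_zero
  have f1 := fin_ne h1 x hx0
  have f2 := fin_ne h1 w hHy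
  have f3 : {P : Place L K | θ ≠ 0 ∧ P.ord θ ≠ 0}.Finite := by
    by_cases h0 : θ = 0
    · refine Set.finite_empty.subset fun P hP => ?_
      exact absurd h0 hP.1
    · exact (fin_ne h1 θ h0).subset fun P hP => hP.2
  have hfin := ((f1.union f2).union f3).image (ofL L)
  refine ⟨hfin.toFinset, fun P hP hPT => ?_⟩
  have hnot : toL L P hP ∉ ({w : Place L K | w.ord x ≠ 0} ∪ {P | P.ord w ≠ 0} ∪
      {P : Place L K | θ ≠ 0 ∧ P.ord θ ≠ 0}) := by
    intro h2
    apply hPT
    rw [Set.Finite.mem_toFinset]
    exact ⟨_, h2, ofL_toL L P hP⟩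
  simp only [Set.mem_union, Set.mem_ofPred_eq, not_or, not_not, not_and] at hnot
  obtain ⟨⟨hn1, hn2⟩, hn3⟩ := hnot
  have g1 : P.ord x = 0 := hn1
  have g2 : P.ord w = 0 := hn2
  have g3 : P.Reg θ := by
    by_cases h0 : θ = 0
    · exact Or.inl h0
    · exact Or.inr (show 0 ≤ P.ord θ from (hn3 h0).ge)
  have hxr : P.Reg x := Or.inr g1.ge
  have hreg : ∀ i, P.Reg ((![x, θ] : Fin 2 → K) i) := by
    intro i
    fin_cases i
    · exact hxr
    · exact g3
  refine ⟨hxr, ?_⟩
  have hch : Chart L ![x, θ] H P := by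
    refine ⟨hP, hH, hgen, hreg, 1, ?_, ?_⟩
    · rw [← hw]; exact hHy
    · rw [← hw]; exact g2
  refine Pool.Agent.Y971.SP.sChart ℂ K L ![x, θ] H P hch D (fun c hc => by
    rw [hD c hc]; exact L.zero_mem) ?_
  intro i
  fin_cases i
  · change P.Reg (D x)
    rw [hDx]
    exact P.reg_one
  · change P.Reg (D θ)
    have h2 := der_aeval L D hD ![x, θ] H
    rw [hH, map_zero, Fin.sum_univ_two] at h2
    have h3 : 0 = aeval ![x, θ] (pderiv 0 H) * D x + w * D θ := by
      rw [hw]
      exact h2
    rw [hDx, mul_one] at h3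
    have h4 : D θ = -(aeval ![x, θ] (pderiv 0 H)) * w⁻¹ := by
      field_simp
      linear_combination -h3
    rw [h4]
    refine P.reg_mul (P.reg_neg (reg_aeval L hP hreg _)) (Or.inr ?_)
    rw [P.ord_inv, g2, neg_zero]

end main

end Pool.Agent.V8H61.FG
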