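import Pool.Agent.V8H61.FG.Fin
import Pool.Agent.V8H61.FG.Val

/-! # Integrality of pluricanonical forms over the differentials of finitely many functions -/

set_option autoImplicit false

namespace Pool.Agent.V8H61.FG

open FF Pool.Agent.W602.GT Pool.Agent.Y742.SP
open Pool.Agent.V8H90.FG
open scoped IntermediateField.algebraAdjoinAdjoin

/-- the restriction of a place -/
theorem exists_restr {k k' K F : Type} [Field k] [Field k'] [Field K] [Field F] [Algebra k' K]
    [Algebra k F] (v : Place k F) (φ : K →+* F)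
    (hc : ∀ c : k', c ≠ 0 → v.ord (φ (algebraMap k' K c)) = 0)
    (hne : ∃ a : K, v.ord (φ a) ≠ 0) :
    ∃ (P : Place k' K) (r : ℤ), 0 < r ∧ ∀ a, v.ord (φ a) = r * P.ord a := by
  have hφ : ∀ a : K, a ≠ 0 → φ a ≠ 0 := fun a ha => (map_ne_zero φ).2 ha
  let G : AddSubgroup ℤ :=
    { carrier := {n | ∃ a : K, a ≠ 0 ∧ v.ord (φ a) = n}
      add_mem' := by
        rintro _ _ ⟨a, ha, rfl⟩ ⟨b, hb, rfl⟩
        exact ⟨a * b, mul_ne_zero ha hb, by rw [map_mul, v.ord_mul (hφ a ha) (hφ b hb)]⟩
      zero_mem' := ⟨1, one_ne_zero, by rw [map_one, v.ord_one]⟩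
      neg_mem' := by
        rintro _ ⟨a, ha, rfl⟩
        exact ⟨a⁻¹, inv_ne_zero ha, by rw [map_inv₀, v.ord_inv]⟩ }
  obtain ⟨g, hg⟩ := Int.subgroup_cyclic G
  have hG : ∀ n, n ∈ G ↔ g ∣ n := by
    intro n
    rw [hg, ← AddSubgroup.zmultiples_eq_closure, Int.mem_zmultiples_iff]
  obtain ⟨a0, ha0⟩ := hne
  have ha0' : a0 ≠ 0 := by
    rintro rfl
    exact ha0 (by rw [map_zero, v.ord_zero])
  have hg0 : g ≠ 0 := by
    rintro rfl
    have h1 := (hG (v.ord (φ a0))).1 ⟨a0, ha0', rfl⟩
    exact ha0 (zero_dvd_iff.1 h1)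
  obtain ⟨r, hr⟩ : ∃ r : ℤ, r = |g| := ⟨_, rfl⟩
  have hr0 : 0 < r := by rw [hr]; exact abs_pos.2 hg0
  have hdvd : ∀ a, r ∣ v.ord (φ a) := by
    intro a
    by_cases ha : a = 0
    · rw [ha, map_zero, v.ord_zero]
      exact dvd_zero _
    · rw [hr, abs_dvd]
      exact (hG _).1 ⟨a, ha, rfl⟩
  have ho : ∀ a, r * (v.ord (φ a) / r) = v.ord (φ a) := fun a => Int.mul_ediv_cancel' (hdvd a)
  refine ⟨{ ord := fun a => v.ord (φ a) / r
            ord_zero := by rw [map_zero, v.ord_zero, Int.zero_ediv]
            ord_mul := ?_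
            ord_add := ?_
            ord_const := ?_
            surj := ?_ }, r, hr0, fun a => (ho a).symm⟩
  · intro a b ha hb
    rw [map_mul, v.ord_mul (hφ a ha) (hφ b hb)]
    exact Int.add_ediv_of_dvd_left (hdvd a)
  · intro a b ha hb hab
    have h1 := v.ord_add (hφ a ha) (hφ b hb) (by rw [← map_add]; exact hφ _ hab)
    rw [← map_add] at h1
    rw [← ho a, ← ho b, ← ho (a + b)] at h1
    by_contra h2
    push Not at h2
    rw [lt_min_iff] at h2
    have h3 := mul_lt_mul_of_pos_left h2.1 hr0
    have h4 := mul_lt_mul_of_pos_left h2.2 hr0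
    exact absurd h1 (not_le.2 (lt_min h3 h4))
  · intro c hc0
    rw [hc c hc0, Int.zero_ediv]
  · have h1 : r ∈ G := (hG r).2 (by rw [hr]; exact (dvd_abs g g).2 dvd_rfl)
    obtain ⟨a, ha, h2⟩ := h1
    exact ⟨a, ha, by rw [h2, Int.ediv_self hr0.ne']⟩

/-- a derivation over an intermediate field -/
noncomputable def derOver {k K : Type} [Field k] [Field K] [Algebra k K]
    (F : IntermediateField k K) (D : Derivation k K K) (h : ∀ a ∈ F, D a = 0) :
    Derivation F K K :=
  Derivation.mk'
    { toFun := D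
      map_add' := D.map_add
      map_smul' := by
        intro c a
        have h1 : D (algebraMap F K c) = 0 := h c c.2
        change D (c • a) = c • D a
        rw [Algebra.smul_def c a, D.leibniz, h1, smul_zero, add_zero, Algebra.smul_def c (D a)]
        rfl }
    (fun a b => D.leibniz a b)

/-- derivations vanish on algebraic functions -/
theorem der_alg {F K : Type} [Field F] [CharZero F] [Field K] [Algebra F K]
    (D : Derivation F K K) {b : K} (hb : IsAlgebraic F b) : D b = 0 := by
  have h1 := hb.isIntegral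
  have h2 := D.map_aeval (minpoly F b) b
  rw [minpoly.aeval, map_zero] at h2
  rcases smul_eq_zero.1 h2.symm with h3 | h3
  · exfalso
    have h4 := minpoly.degree_le_of_ne_zero F b (p := Polynomial.derivative (minpoly F b)) (by
      intro h5
      have h6 := Polynomial.derivative_eq_zero.1 h5
      have h7 := minpoly.natDegree_pos h1
      omega) h3
    exact absurd (Polynomial.degree_derivative_lt (minpoly.ne_zero h1)) (not_lt.2 h4)
  · exact h3

section main

variable {K : Type} [Field K] [Algebra ℂ K]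

theorem der_ne (L : IntermediateField ℂ K) (h1 : Algebra.trdeg L K = 1)
    (D : Derivation ℂ K K) (hD : ∀ a ∈ L, D a = 0) {x : K} (hx : D x ≠ 0) {f : K}
    (hf : Transcendental L f) : D f ≠ 0 := by
  intro h0
  apply hx
  have halg := algF h1 hf
  have hc : CharZero L := charZero_of_injective_algebraMap (algebraMap ℂ L).injective
  have hc0 : CharZero (IntermediateField.adjoin L {f}) :=
    charZero_of_injective_algebraMap (algebraMap L _).injective
  let D' : Derivation L K K := derOver L D hD
  have hD' : ∀ a ∈ IntermediateField.adjoin L {f}, D' a = 0 := by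
    intro a ha
    induction ha using IntermediateField.adjoin_induction with
    | mem y hy =>
      rw [Set.mem_singleton_iff] at hy
      rw [hy]
      exact h0
    | algebraMap y => exact D'.map_algebraMap y
    | add y z _ _ hy hz => rw [map_add, hy, hz, add_zero]
    | inv y _ hy => rw [Derivation.leibniz_inv, hy, smul_zero]
    | mul y z _ _ hy hz => rw [Derivation.leibniz, hy, hz, smul_zero, smul_zero, add_zero]
  exact der_alg (derOver (IntermediateField.adjoin L {f}) D' hD')
    (Algebra.IsAlgebraic.isAlgebraic (R := IntermediateField.adjoin L {f}) x)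

theorem gens_finite (D : Derivation ℂ K K) (U : Finset K) (e : K → K) : (gens D U e).Finite := by
  have h1 : gens D U e = (fun u => RatFunc.C (e u)) '' (U : Set K) ∪
      (fun u => RatFunc.C (D (e u)) * RatFunc.X) '' (U : Set K) := by
    ext y
    simp only [gens, Set.mem_union, Set.mem_ofPred_eq, Set.mem_image, Finset.mem_coe]
    constructor
    · rintro (⟨u, h1, h2⟩ | ⟨u, h1, h2⟩)
      · exact Or.inl ⟨u, h1, h2.symm⟩
      · exact Or.inr ⟨u, h1, h2.symm⟩
    · rintro (⟨u, h1, h2⟩ | ⟨u, h1, h2⟩)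
      · exact Or.inl ⟨u, h1, h2.symm⟩
      · exact Or.inr ⟨u, h1, h2.symm⟩
  rw [h1]
  exact (U.finite_toSet.image _).union (U.finite_toSet.image _)

theorem ess_rat (L : IntermediateField ℂ K) [Algebra.EssFiniteType ℂ K] :
    ∃ S : Finset (RatFunc K), IntermediateField.adjoin L (S : Set (RatFunc K)) = ⊤ := by
  have hE : Algebra.EssFiniteType L K := Algebra.EssFiniteType.of_comp ℂ L K
  have h1 : Algebra.EssFiniteType K (Polynomial K) := inferInstance
  have h2 : Algebra.EssFiniteType (Polynomial K) (RatFunc K) :=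
    Algebra.EssFiniteType.of_isLocalization _ (nonZeroDivisors (Polynomial K))
  have h3 : Algebra.EssFiniteType K (RatFunc K) := Algebra.EssFiniteType.comp K (Polynomial K) _
  have h4 : Algebra.EssFiniteType L (RatFunc K) := Algebra.EssFiniteType.comp L K _
  exact IntermediateField.fg_top_iff.2 h4

theorem algMap_C (L : IntermediateField ℂ K) (a : L) :
    algebraMap L (RatFunc K) a = RatFunc.C (a : K) := by
  rw [IsScalarTower.algebraMap_apply L K (RatFunc K)]
  rfl

theorem der_inv_x (D : Derivation ℂ K K) {x : K} (hx : D x = 1) : D x⁻¹ = -(x ^ 2)⁻¹ := by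
  rw [Derivation.leibniz_inv, hx, smul_eq_mul, mul_one, inv_pow]

theorem sInt (h1 : SLoc) (h2 : SFin) : SInt := by
  classical
  intro K _ _ _ d hK L t ht E hE x hx hDx
  have hK1 := trdeg_one hK L t ht
  obtain ⟨D, hDdef⟩ : ∃ D, D = E (Fin.last d) := ⟨_, rfl⟩
  have hD : ∀ a ∈ L, D a = 0 := by rw [hDdef]; exact hE.last
  have hD1 : D x = 1 := by rw [hDdef]; exact hDx
  obtain ⟨T, hT⟩ := h2 K d hK L t ht x hx D hD hD1
  have hx0 : x ≠ 0 := by
    rintro rfl
    exact hx isAlgebraic_zero
  choose uf huf0 huf1 using fun P : Place ℂ K => P.surj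
  refine ⟨insert x (T.image uf), ?_, Finset.mem_insert_self _ _, ?_⟩
  · intro u hu
    rcases Finset.mem_insert.1 hu with h | h
    · rw [h]; exact hx0
    · obtain ⟨P, _, rfl⟩ := Finset.mem_image.1 h
      exact huf0 P
  intro N ω hω hreg e he
  rw [← hDdef]
  obtain ⟨S, hS⟩ := ess_rat L
  refine Val.valcrit (k := L) S hS (gens D (insert x (T.image uf)) e) (gens_finite D _ e) _ ?_
  intro v hv
  have hXne : (RatFunc.X : RatFunc K) ≠ 0 := RatFunc.X_ne_zero
  have hCne : ∀ a : K, a ≠ 0 → (RatFunc.C a : RatFunc K) ≠ 0 := fun a ha => (map_ne_zero _).2 ha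
  have hpow : ∀ (y : RatFunc K) (n : ℕ), v.Reg y → v.Reg (y ^ n) := by
    intro y n hy
    induction n with
    | zero => rw [pow_zero]; exact v.reg_one
    | succ n ih => rw [pow_succ]; exact v.reg_mul ih hy
  have hxU : x ∈ insert x (T.image uf) := Finset.mem_insert_self _ _
  have gx1 : v.Reg (RatFunc.C (e x)) := hv _ (Or.inl ⟨x, hxU, rfl⟩)
  have gx2 : v.Reg (RatFunc.C (D (e x)) * RatFunc.X) := hv _ (Or.inr ⟨x, hxU, rfl⟩)
  -- `X` is regular as soon as `C (D (e x))` is a unit
  have hX : v.ord (RatFunc.C (D (e x))) = 0 → D (e x) ≠ 0 → v.Reg (RatFunc.X : RatFunc K) := by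
    intro h3 h4
    rw [v.reg_iff (mul_ne_zero (hCne _ h4) hXne), v.ord_mul (hCne _ h4) hXne, h3, zero_add] at gx2
    exact Or.inr gx2
  have hDex : D (e x) ≠ 0 := by
    rcases he x hxU with h | h
    · rw [h, hD1]; exact one_ne_zero
    · rw [h, der_inv_x D hD1]
      exact neg_ne_zero.2 (inv_ne_zero (pow_ne_zero _ hx0))
  by_cases hcase : ∃ a : K, v.ord (RatFunc.C a) ≠ 0
  swap
  · push Not at hcase
    have hXr := hX (hcase _) hDex
    refine v.reg_mul ?_ (hpow _ _ hXr)
    by_cases h0 : ω E = 0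
    · left
      rw [h0, map_zero]
    · exact Or.inr (hcase _).ge
  · obtain ⟨P, r, hr, hPr⟩ := exists_restr (k' := ℂ) v (RatFunc.C : K →+* RatFunc K) (by
      intro c hc
      have h3 := algMap_C L (algebraMap ℂ L c)
      have h4 : ((algebraMap ℂ L c : L) : K) = algebraMap ℂ K c := rfl
      rw [h4] at h3
      rw [← h3]
      exact v.ord_const fun h => hc ((map_eq_zero _).1 h)) hcase
    have hRegC : ∀ a : K, v.Reg (RatFunc.C a) ↔ P.Reg a := by
      intro a
      by_cases ha : a = 0
      · rw [ha, map_zero]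
        exact ⟨fun _ => P.reg_zero, fun _ => v.reg_zero⟩
      · rw [v.reg_iff (hCne a ha), P.reg_iff ha, hPr]
        exact mul_nonneg_iff_of_pos_left hr
    have htriv : TrivOn P L := by
      intro a ha ha0
      have h3 := algMap_C L ⟨a, ha⟩
      have h4 : v.ord (RatFunc.C a) = 0 := by
        have h5 : RatFunc.C a = algebraMap L (RatFunc K) ⟨a, ha⟩ := h3.symm
        rw [h5]
        exact v.ord_const fun h => ha0 (congrArg Subtype.val h)
      rw [hPr] at h4
      rcases mul_eq_zero.1 h4 with h5 | h5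
      · omega
      · exact h5
    have htr : ∀ f : K, P.ord f ≠ 0 → Transcendental L f := by
      intro f hf halg
      have hf0 : f ≠ 0 := by
        rintro rfl
        exact hf P.ord_zero
      exact hf (ord_alg (toL L P htriv) halg hf0)
    have hDne : ∀ f : K, P.ord f ≠ 0 → D f ≠ 0 := fun f hf =>
      der_ne L hK1 D hD (x := x) (by rw [hD1]; exact one_ne_zero) (htr f hf)
    have hloc : ∀ π : K, P.ord π = 1 → P.Reg (ω E / D π ^ N) := by
      intro π hπ
      rw [hDdef]
      exact h1 K d hK L t ht N ω hω hreg E hE P htriv π hπ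
    by_cases hPT : P ∈ T
    · -- the uniformizer belongs to the list
      have hmem : uf P ∈ insert x (T.image uf) :=
        Finset.mem_insert_of_mem (Finset.mem_image_of_mem _ hPT)
      have g1 : v.Reg (RatFunc.C (e (uf P))) := hv _ (Or.inl ⟨_, hmem, rfl⟩)
      have g2 : v.Reg (RatFunc.C (D (e (uf P))) * RatFunc.X) := hv _ (Or.inr ⟨_, hmem, rfl⟩)
      have heu : e (uf P) = uf P := by
        rcases he _ hmem with h | h
        · exact h
        · exfalso
          rw [h, hRegC, P.reg_iff (inv_ne_zero (huf0 P)), P.ord_inv, huf1 P] at g1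
          omega
      rw [heu] at g2
      have hDu := hDne (uf P) (by rw [huf1 P]; exact one_ne_zero)
      have h3 := (hRegC _).2 (hloc (uf P) (huf1 P))
      have h4 : RatFunc.C (ω E) * RatFunc.X ^ N = RatFunc.C (ω E / D (uf P) ^ N) *
          (RatFunc.C (D (uf P)) * RatFunc.X) ^ N := by
        have h5 : (RatFunc.C (ω E / D (uf P) ^ N) : RatFunc K) * RatFunc.C (D (uf P)) ^ N =
            RatFunc.C (ω E) := by
          rw [← map_pow (RatFunc.C : K →+* RatFunc K), ← map_mul,
            div_mul_cancel₀ _ (pow_ne_zero _ hDu)]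
        rw [mul_pow, ← mul_assoc, h5]
      rw [h4]
      exact v.reg_mul h3 (hpow _ _ g2)
    · obtain ⟨hPx, hPD⟩ := hT P htriv hPT
      obtain ⟨π, hπ0, hπ⟩ := P.surj
      have hDπ := hDne π (by rw [hπ]; exact one_ne_zero)
      have hDπr : P.Reg (D π) := hPD π (Or.inr (by rw [hπ]; norm_num))
      have hpowP : P.Reg (D π ^ N) := by
        rw [P.reg_iff hDπ] at hDπr
        refine Or.inr ?_
        rw [P.ord_pow]
        positivity
      have hωr : P.Reg (ω E) := by
        have h3 := P.reg_mul (hloc π hπ) hpowP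
        rwa [div_mul_cancel₀ _ (pow_ne_zero _ hDπ)] at h3
      have hXr : v.Reg (RatFunc.X : RatFunc K) := by
        refine hX ?_ hDex
        rw [hPr]
        rcases he x hxU with h | h
        · rw [h, hD1, P.ord_one, mul_zero]
        · rw [h, hRegC, P.reg_iff (inv_ne_zero hx0), P.ord_inv] at gx1
          rw [P.reg_iff hx0] at hPx
          rw [h, der_inv_x D hD1, P.ord_neg, P.ord_inv, P.ord_pow]
          have h5 : P.ord x = 0 := by omega
          rw [h5]
          simp
      exact v.reg_mul ((hRegC _).2 hωr) (hpow _ _ hXr)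

end main

end Pool.Agent.V8H61.FG
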